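import Pool.Agent.helper80.SV.Spec

/-!
# Project sv: module CRT: the core in the coordinates of the problem
-/

set_option autoImplicit false
set_option linter.unusedSectionVars false

namespace Pool.Agent.SV

open MvPolynomial Module

theorem CRT_sum_class {k : ℕ} (n : Fin k → ℕ) (m : Var n → ℕ) (i : Fin k) :
    ∑ v ∈ Finset.univ.filter (fun v : Var n => v.1 = i), m v = ∑ j : Fin (n i + 1), m ⟨i, j⟩ := by
  rw [Finset.sum_filter, Fintype.sum_sigma, Finset.sum_eq_single i]
  · simp
  · intro b _ hb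
    simp [hb]
  · simp

theorem CRT_MH (k : ℕ) (n d : Fin k → ℕ) :
    MultiHom n d = Sec (Sigma.fst : Var n → Fin k) Finset.univ d := by
  ext f
  rw [mem_Sec]
  constructor
  · intro hf m hm
    refine ⟨fun i hi => absurd (Finset.mem_univ i) hi, fun i => ?_⟩
    rw [CRT_sum_class n m i]
    exact hf m hm i
  · intro hf m hm i
    have h := (hf m hm).2 i
    rw [CRT_sum_class n m i] at h
    exact h

theorem CRT_card_univ {k : ℕ} (n : Fin k → ℕ) (i : Fin k) :
    ((Finset.univ : Finset (Var n)).filter (fun v => v.1 = i)).card = n i + 1 := by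
  rw [Finset.card_eq_sum_ones, CRT_sum_class n (fun _ => 1) i]
  simp

theorem CRT_card_erase {k : ℕ} (n : Fin k → ℕ) (j i : Fin k) :
    (((Finset.univ : Finset (Var n)).erase ⟨j, 0⟩).filter (fun v => v.1 = i)).card =
      if i = j then n j else n i + 1 := by
  have h1 : ((Finset.univ : Finset (Var n)).erase ⟨j, 0⟩).filter (fun v => v.1 = i) =
      ((Finset.univ : Finset (Var n)).filter (fun v => v.1 = i)).erase ⟨j, 0⟩ := by
    ext v
    simp only [Finset.mem_filter, Finset.mem_erase]
    tauto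
  rw [h1]
  by_cases hij : i = j
  · subst hij
    rw [Finset.card_erase_of_mem (by simp), CRT_card_univ]
    simp
  · rw [Finset.erase_eq_of_notMem, CRT_card_univ, if_neg hij]
    simp only [Finset.mem_filter, Finset.mem_univ, true_and]
    exact fun h => hij h.symm

theorem CRT_Dk_univ {k : ℕ} (n d : Fin k → ℕ) (hd : ∀ i, 1 ≤ d i) :
    Dk (Sigma.fst : Var n → Fin k) Finset.univ d = ∑ i, n i + 1 := by
  unfold Dk
  rw [Finset.filter_true_of_mem (fun i _ => hd i), add_comm]
  congr 1
  refine Finset.sum_congr rfl fun i _ => ?_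
  rw [CRT_card_univ]
  rfl

theorem CRT_Dk_erase {k : ℕ} (n d : Fin k → ℕ) (hd : ∀ i, 1 ≤ d i) (j : Fin k) (hn : 1 ≤ n j) :
    Dk (Sigma.fst : Var n → Fin k) (Finset.univ.erase ⟨j, 0⟩) d = ∑ i, n i := by
  unfold Dk
  rw [Finset.filter_true_of_mem (fun i _ => hd i),
    ← Finset.add_sum_erase _ _ (Finset.mem_univ j), ← Finset.add_sum_erase _ n (Finset.mem_univ j),
    CRT_card_erase, if_pos rfl]
  have h1 : ∑ x ∈ Finset.univ.erase j,
      ((((Finset.univ : Finset (Var n)).erase ⟨j, 0⟩).filter (fun v => v.1 = x)).card - 1) =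
      ∑ x ∈ Finset.univ.erase j, n x := by
    refine Finset.sum_congr rfl fun i hi => ?_
    rw [CRT_card_erase, if_neg (Finset.ne_of_mem_erase hi)]
    rfl
  rw [h1]
  omega

theorem CRT_Dk_low {k : ℕ} (n d : Fin k → ℕ) (hd : ∀ i, 1 ≤ d i) (j : Fin k) (h2 : 2 ≤ d j) :
    (3 ≤ d j → Dk (Sigma.fst : Var n → Fin k) Finset.univ (low (low d j) j) = ∑ i, n i + 1) ∧
    (d j = 2 → Dk (Sigma.fst : Var n → Fin k) Finset.univ (low (low d j) j) =
      ∑ i, n i - n j + 1) := by
  have hlow : low (low d j) j = Function.update d j (d j - 2) := by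
    unfold low
    simp only [Function.update_self, Function.update_idem]
    rfl
  constructor
  · intro h3
    apply CRT_Dk_univ
    intro i
    rw [hlow]
    by_cases hi : i = j
    · subst hi
      simp only [Function.update_self]
      omega
    · rw [Function.update_of_ne hi]
      exact hd i
  · intro h2
    unfold Dk
    have h1 : Finset.univ.filter (fun i => 1 ≤ low (low d j) j i) = Finset.univ.erase j := by
      ext i
      simp only [Finset.mem_filter, Finset.mem_univ, true_and, Finset.mem_erase, and_true]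
      rw [hlow]
      by_cases hi : i = j
      · subst hi
        simp [h2]
      · rw [Function.update_of_ne hi]
        simp [hi, hd i]
    rw [h1, ← Finset.add_sum_erase _ n (Finset.mem_univ j), add_comm]
    congr 1
    rw [Nat.add_sub_cancel_left]
    refine Finset.sum_congr rfl fun i _ => ?_
    rw [CRT_card_univ]
    rfl

theorem CRT_mc (a b : ℕ) : Nat.multichoose (a + 1) b = (a + b).choose a := by
  rw [Nat.multichoose_eq]
  have h1 : a + 1 + b - 1 = a + b := by omega
  rw [h1]
  exact (Nat.choose_symm_add).symm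

theorem CRT_prod {k : ℕ} (n d e : Fin k → ℕ) (j : Fin k) (a : Fin k → ℕ)
    (h1 : ∀ i, i ≠ j → a i = n i + 1) (h2 : ∀ i, i ≠ j → e i = d i) :
    ∏ i, Nat.multichoose (a i) (e i) =
      (∏ i ∈ Finset.univ.erase j, (n i + d i).choose (n i)) * Nat.multichoose (a j) (e j) := by
  rw [← Finset.mul_prod_erase _ _ (Finset.mem_univ j), mul_comm]
  congr 1
  refine Finset.prod_congr rfl fun i hi => ?_
  have hij := Finset.ne_of_mem_erase hi
  rw [h1 i hij, h2 i hij, CRT_mc]

theorem CRT (hCOR : COR_stmt) (hDIM : DIM_stmt) (hNUM : NUM_stmt) : CRT_stmt := by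
  intro k n d hk hn hd j hcond r hr
  set N := ∑ i, n i with hN
  set M := ∏ i ∈ Finset.univ.erase j, (n i + d i).choose (n i) with hM
  have hj2 : 2 ≤ d j := by
    rcases hcond with ⟨h, _⟩ | ⟨h, _⟩
    · omega
    · omega
  -- another colour
  obtain ⟨l, hlj⟩ : ∃ l : Fin k, l ≠ j := by
    have : Nontrivial (Fin k) := Fin.nontrivial_iff_two_le.mpr hk
    exact exists_ne j
  have hNj : n j + 1 ≤ N := by
    have h1 : n j + ∑ i ∈ Finset.univ.erase j, n i = N :=
      Finset.add_sum_erase _ n (Finset.mem_univ j)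
    have h2 : n l ≤ ∑ i ∈ Finset.univ.erase j, n i :=
      Finset.single_le_sum (f := n) (fun _ _ => Nat.zero_le _)
        (Finset.mem_erase.mpr ⟨hlj, Finset.mem_univ l⟩)
    have h3 := hn l
    omega
  have hM1 : 1 ≤ M := by
    refine Nat.one_le_iff_ne_zero.mpr (Finset.prod_ne_zero_iff.mpr fun i _ => ?_)
    exact (Nat.choose_pos (by omega)).ne'
  have hnj := hn j
  -- dimensions
  have hh : finrank ℂ (Sec (Sigma.fst : Var n → Fin k) Finset.univ d) =
      M * Nat.multichoose (n j + 1) (d j) := by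
    rw [hDIM, CRT_prod n d d j _ (fun i _ => CRT_card_univ n i) (fun i _ => rfl), CRT_card_univ]
  have hhH : finrank ℂ (Sec (Sigma.fst : Var n → Fin k) (Finset.univ.erase ⟨j, 0⟩) d) =
      M * Nat.multichoose (n j) (d j) := by
    rw [hDIM, CRT_prod n d d j _ (fun i hi => by rw [CRT_card_erase, if_neg hi]) (fun i _ => rfl),
      CRT_card_erase, if_pos rfl]
  have hlow1 : low d j = Function.update d j (d j - 1) := rfl
  have hh' : finrank ℂ (Sec (Sigma.fst : Var n → Fin k) Finset.univ (low d j)) =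
      M * Nat.multichoose (n j + 1) (d j - 1) := by
    rw [hDIM, CRT_prod n d (low d j) j _ (fun i _ => CRT_card_univ n i)
      (fun i hi => by rw [hlow1, Function.update_of_ne hi]), CRT_card_univ, hlow1,
      Function.update_self]
  have hlow2 : low (low d j) j = Function.update d j (d j - 2) := by
    unfold low
    simp only [Function.update_self, Function.update_idem]
    rfl
  have hh'' : finrank ℂ (Sec (Sigma.fst : Var n → Fin k) Finset.univ (low (low d j) j)) =
      M * Nat.multichoose (n j + 1) (d j - 2) := by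
    rw [hDIM, CRT_prod n d (low (low d j) j) j _ (fun i _ => CRT_card_univ n i)
      (fun i hi => by rw [hlow2, Function.update_of_ne hi]), CRT_card_univ, hlow2,
      Function.update_self]
  have hhj : hj n d j = M * Nat.multichoose (n j) (d j - 1) := by
    unfold hj
    rw [mul_comm, ← hM]
    congr 1
    obtain ⟨a, ha⟩ : ∃ a, n j = a + 1 := ⟨n j - 1, by omega⟩
    obtain ⟨b, hb⟩ : ∃ b, d j = b + 1 := ⟨d j - 1, by omega⟩
    rw [ha, hb, CRT_mc]
    have h1 : a + 1 + (b + 1) - 2 = a + b := by omega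
    rw [h1]
    rfl
  have hhsum : M * Nat.multichoose (n j + 1) (d j) =
      M * Nat.multichoose (n j) (d j) + M * Nat.multichoose (n j + 1) (d j - 1) := by
    obtain ⟨b, hb⟩ : ∃ b, d j = b + 1 := ⟨d j - 1, by omega⟩
    rw [hb, Nat.multichoose_succ_succ, Nat.mul_add]
    rfl
  have hMH : finrank ℂ (MultiHom n d) = M * Nat.multichoose (n j + 1) (d j) := by
    rw [CRT_MH, hh]
  have hmn : n j + (N - n j) = N := by omega
  have hDu := CRT_Dk_univ n d hd
  have hDe := CRT_Dk_erase n d hd j hnj
  have hDl := CRT_Dk_low n d hd j hj2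
  rw [← hN] at hDu hDe hDl
  have key := hNUM (n j) (N - n j) (d j) M _ _ _ _ hnj (by omega) hj2 hM1 rfl rfl rfl rfl
  rw [hmn] at key
  have hcond' : (3 ≤ d j ∧ (N + 1) ^ 3 ≤ M * Nat.multichoose (n j) (d j - 1)) ∨
      (d j = 2 ∧ (N - n j + 1) * (N + 1) ^ 3 ≤
        (N - n j - 1) * (M * Nat.multichoose (n j) (d j - 1))) := by
    rw [← hhj]
    exact hcond
  have hr' : r = (M * Nat.multichoose (n j) (d j) + M * Nat.multichoose (n j + 1) (d j - 1)) /
        (N + 1) ∨
      r = (M * Nat.multichoose (n j) (d j) + M * Nat.multichoose (n j + 1) (d j - 1) + N) /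
        (N + 1) := by
    rw [← hhsum, ← hMH]
    exact hr
  obtain ⟨u, δ, r', h1, h2, h3, h4, h5, h6, h7⟩ := key hcond' r hr'
  have hcor := hCOR (Sigma.fst : Var n → Fin k) ⟨j, 0⟩ d r' δ u
    (by
      intro i
      refine ⟨⟨i, Fin.last (n i)⟩, ?_, rfl⟩
      intro h
      rw [Sigma.mk.injEq] at h
      obtain ⟨h8, h9⟩ := h
      subst h8
      have h10 := congrArg Fin.val (eq_of_heq h9)
      simp only [Fin.val_last, Fin.val_zero] at h10
      have := hn i
      omega)
    ⟨l, hlj⟩ hd hj2
    (by rw [hDe, hhH]; exact h2)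
    (by rw [hDe]; exact h3)
    (by
      rw [hDu]
      change 1 ≤ r' → (r' - 1) * (N + 1) + (N + 1) * (N + 1 - 1) / 2 <
        finrank ℂ (Sec (Sigma.fst : Var n → Fin k) Finset.univ (low d j))
      rw [hh']
      exact h4)
    (by
      change finrank ℂ (Sec (Sigma.fst : Var n → Fin k) Finset.univ (low (low d j) j)) /
        Dk (Sigma.fst : Var n → Fin k) Finset.univ (low (low d j) j) +
        Dk (Sigma.fst : Var n → Fin k) Finset.univ (low (low d j) j) - 1 ≤ r'
      rw [hh'']
      exact h5 _ hDl.1 hDl.2)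
    (by
      rw [hDu, hDe]
      change _ < finrank ℂ (Sec (Sigma.fst : Var n → Fin k) Finset.univ (low d j)) + N
      rw [hh']
      exact h6)
  subst h1
  obtain ⟨x, hx⟩ := hcor
  refine ⟨x, hx.trans ?_⟩
  rw [hDu, hDe]
  change finrank ℂ (Sec (Sigma.fst : Var n → Fin k) Finset.univ (low d j)) - _ - _ - _ ≤ _
  rw [hh', hMH, hhsum]
  exact h7

end Pool.Agent.SV
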