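import Pool.Agent.helper96.SV.SpecA

/-!
# Project sva: module LIN: moving one point on a line
-/

set_option autoImplicit false
set_option linter.unusedSectionVars false

namespace Pool.Agent.SVA

open Polynomial Module

theorem LIN_ten {K : Type} [Fintype K] [DecidableEq K] {m : K → ℕ} (y : Py m) (i : K)
    (w : Fin (m i + 1) → ℂ) (β : Bx m) :
    ten (Function.update y i w) β = w (β i) * ∏ i' ∈ Finset.univ.erase i, y i' (β i') := by
  unfold ten
  rw [← Finset.mul_prod_erase _ _ (Finset.mem_univ i), Function.update_self]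
  congr 1
  refine Finset.prod_congr rfl fun i' hi' => ?_
  rw [Function.update_of_ne (Finset.ne_of_mem_erase hi')]

theorem LIN_pr {K : Type} [Fintype K] [DecidableEq K] {m : K → ℕ} (a : Bx m → ℂ) (y : Py m) (i : K)
    (w : Fin (m i + 1) → ℂ) :
    pr a (ten (Function.update y i w)) =
      ∑ j, w j * pr a (ten (Function.update y i (Pi.single j 1))) := by
  unfold pr
  simp only [Finset.mul_sum]
  rw [Finset.sum_comm]
  refine Finset.sum_congr rfl fun β _ => ?_
  rw [LIN_ten, Finset.sum_eq_single (β i)]
  · rw [LIN_ten, Pi.single_eq_same]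
    ring
  · intro j _ hj
    rw [LIN_ten, Pi.single_eq_of_ne (Ne.symm hj)]
    ring
  · intro h
    exact absurd (Finset.mem_univ _) h

theorem LIN_Sg {K : Type} [Fintype K] [DecidableEq K] {m : K → ℕ} (y : Py m) (p : ℂ)
    (F : Bx m → ℂ[X]) :
    F ∈ Sg (y, p) ↔ (∀ (i : K) (j : Fin (m i + 1)),
      pr (ev p F) (ten (Function.update y i (Pi.single j 1))) = 0) ∧
      pr (dv p F) (ten y) = 0 := by
  rw [mem_Sg]
  refine and_congr ?_ Iff.rfl
  constructor
  · intro h i j
    exact h _ (Submodule.subset_span ⟨i, _, rfl⟩)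
  · intro h z hz
    change z ∈ Submodule.span ℂ _ at hz
    induction hz using Submodule.span_induction with
    | mem z hz =>
      obtain ⟨i, w, rfl⟩ := hz
      change pr (ev p F) (ten (Function.update y i w)) = 0
      rw [LIN_pr]
      exact Finset.sum_eq_zero fun j _ => by rw [h i j, mul_zero]
    | zero => exact pr_zero_right _
    | add z w _ _ h1 h2 => rw [pr_add_right, h1, h2, add_zero]
    | smul c z _ h1 => rw [pr_smul_right, h1, mul_zero]

theorem LIN (hT1 : SV.T1_stmt) : LIN_stmt := by
  intro K _ _ _ m e k l y₀ y₁ p h0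
  let yt : ℂ → Py m := fun t => y₀ + t • (y₁ - y₀)
  let B : ℂ → ↥(NN e l) →ₗ[ℂ] (((i : K) × Fin (m i + 1)) ⊕ Unit → ℂ) := fun t =>
    { toFun := fun F s => match s with
        | Sum.inl q => pr (ev p F.1) (ten (Function.update (yt t) q.1 (Pi.single q.2 1)))
        | Sum.inr _ => pr (dv p F.1) (ten (yt t))
      map_add' := fun F G => by
        funext s
        rcases s with q | q
        · change pr (ev p (F.1 + G.1)) _ = pr (ev p F.1) _ + pr (ev p G.1) _
          rw [ev_add, pr_add_left]
        · change pr (dv p (F.1 + G.1)) _ = pr (dv p F.1) _ + pr (dv p G.1) _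
          rw [dv_add, pr_add_left]
      map_smul' := fun c F => by
        funext s
        rcases s with q | q
        · change pr (ev p (c • F.1)) _ = c * pr (ev p F.1) _
          rw [ev_smul, pr_smul_left]
        · change pr (dv p (c • F.1)) _ = c * pr (dv p F.1) _
          rw [dv_smul, pr_smul_left] }
  have hcoord : ∀ (i : K) (j : Fin (m i + 1)), SV.PolyFun (fun t => yt t i j) := by
    intro i j
    have h1 := (SV.PolyFun.const (y₀ i j)).add
      (SV.PolyFun.id.mul (SV.PolyFun.const (y₁ i j - y₀ i j)))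
    exact h1
  have hpoly : ∀ v s, SV.PolyFun (fun t => B t v s) := by
    intro F s
    rcases s with q | q
    · change SV.PolyFun (fun t => ∑ β, ev p F.1 β *
        ten (Function.update (yt t) q.1 (Pi.single q.2 1)) β)
      refine SV.PolyFun.sum _ fun β _ => (SV.PolyFun.const _).mul ?_
      have h1 : (fun t => ten (Function.update (yt t) q.1 (Pi.single q.2 1)) β) =
          fun t => (Pi.single q.2 1 : Fin (m q.1 + 1) → ℂ) (β q.1) *
            ∏ i' ∈ Finset.univ.erase q.1, yt t i' (β i') := by
        funext t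
        rw [LIN_ten]
      rw [h1]
      exact (SV.PolyFun.const _).mul (SV.PolyFun.prod _ fun i' _ => hcoord i' (β i'))
    · change SV.PolyFun (fun t => ∑ β, dv p F.1 β * ten (yt t) β)
      refine SV.PolyFun.sum _ fun β _ => (SV.PolyFun.const _).mul ?_
      exact SV.PolyFun.prod _ fun i' _ => hcoord i' (β i')
  have hker : ∀ t, finrank ℂ (LinearMap.ker (B t)) = finrank ℂ (NN e ((yt t, p) :: l)) := by
    intro t
    suffices hmap : Submodule.map (NN e l).subtype (LinearMap.ker (B t)) =
        NN e ((yt t, p) :: l) by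
      rw [← Submodule.finrank_map_subtype_eq (NN e l) (LinearMap.ker (B t)), hmap]
    ext F
    rw [Submodule.mem_map]
    constructor
    · rintro ⟨G, hG, rfl⟩
      rw [LinearMap.mem_ker] at hG
      have h1 := mem_NN.mp G.2
      rw [mem_NN]
      refine ⟨h1.1, fun P hP => ?_⟩
      rcases List.mem_cons.mp hP with rfl | hP
      · rw [LIN_Sg]
        refine ⟨fun i j => ?_, ?_⟩
        · exact congrFun hG (Sum.inl ⟨i, j⟩)
        · exact congrFun hG (Sum.inr ())
      · exact h1.2 P hP
    · intro hF
      rw [mem_NN] at hF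
      have h1 : F ∈ NN e l := mem_NN.mpr ⟨hF.1, fun P hP => hF.2 P (List.mem_cons_of_mem _ hP)⟩
      refine ⟨⟨F, h1⟩, ?_, rfl⟩
      rw [LinearMap.mem_ker]
      have h2 := (LIN_Sg (yt t) p F).mp (hF.2 _ List.mem_cons_self)
      funext s
      rcases s with q | q
      · exact h2.1 q.1 q.2
      · exact h2.2
  have hy0 : yt 0 = y₀ := by
    change y₀ + (0 : ℂ) • (y₁ - y₀) = y₀
    rw [zero_smul, add_zero]
  have h1 := hT1 B hpoly k 0 (by rw [hker, hy0]; exact h0)
  refine h1.subset ?_
  intro t ht
  change ¬ finrank ℂ (LinearMap.ker (B t)) ≤ k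
  rw [hker]
  exact ht

end Pool.Agent.SVA
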