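import Pool.Agent.helper96.SV.SpecA

/-!
# Project sva: module STA: start of the induction
-/

set_option autoImplicit false
set_option linter.unusedSectionVars false

namespace Pool.Agent.SVA

open Polynomial Module

theorem STA_nil {K : Type} [Fintype K] [DecidableEq K] {m : K → ℕ} (e : ℕ) :
    NN e ([] : List (Py m × ℂ)) = WW m e := by
  ext F
  rw [mem_NN, mem_WW]
  simp

theorem STA (hWDM : WDM_stmt) : STA_stmt := by
  intro K _ _ _ m
  have hv : 1 ≤ vv m := by
    unfold vv
    exact Finset.prod_pos fun i _ => Nat.succ_pos _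
  refine ⟨le_refl 1, hv, le_refl _, by ring, [], rfl, ?_, ?_⟩
  · rw [STA_nil, hWDM, mul_one]
  · rw [STA_nil, hWDM, Nat.sub_self, mul_zero]

end Pool.Agent.SVA
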